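import Pool.Agent.Helper96_BS.Paths

/-! # BS module ALT: no alternation around a vertex -/

set_option autoImplicit false

namespace Pool.Agent.BS.H96

open Function Pool.Agent.BS

theorem alt : AltStmt := by
  intro D V T hT b Z E hZf hZc hEc hZE hbZ hbE d q r u n hd hq hqr hru hun hinj hE0 hZq hEr hZu
  classical
  -- the coloring: closed exactly on `Z ∪ {b}`
  let c : V → Bool := fun v => decide (v ∉ Z ∧ v ≠ b)
  have hcE : ∀ v ∈ E, c v = true := by
    intro v hv
    have h1 : v ∉ Z := fun h => Set.disjoint_left.1 hZE h hv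
    have h2 : v ≠ b := fun h => hbE (h ▸ hv)
    simp [c, h1, h2]
  have hcZ : ∀ v ∈ Z, c v = false := by
    intro v hv
    simp [c, hv]
  have hcb : c b = false := by simp [c]
  have hs : T.State c d := ⟨hcE _ hE0, by rw [hd]; exact hcb⟩
  have hfin : {e | T.State c e}.Finite := by
    refine Set.Finite.subset (finite_rt T (hZf.union (Set.finite_singleton b))) ?_
    intro e he
    have h := he.2
    simp only [c, decide_eq_false_iff_not, not_and, not_not] at h
    by_cases h1 : T.rt e ∈ Z
    · exact Or.inl h1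
    · exact Or.inr (h h1)
  obtain ⟨N, hN, hNs, hNinj⟩ := st_period T hs hfin
  -- darts with equally coloured ends or reversed states are not on the loop
  have hnl : ∀ (m : ℕ) (e : D), ¬ T.State c e → ¬ T.State c (T.al e) →
      T.cnt (fun k : ℕ => T.st c d (k : ℤ)) m e = 0 := by
    intro m e h1 h2
    refine cnt_zero T ?_ ?_
    · intro k _ h; exact h1 (h ▸ hs.st k)
    · intro k _ h; exact h2 (h ▸ hs.st k)
  have htN : T.IsTurn (fun k : ℕ => T.st c d (k : ℤ)) N := by
    have h := st_turn T hs 0 N
    simpa using h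
  obtain ⟨χ, _, hχ⟩ := hT (fun k : ℕ => T.st c d (k : ℤ)) N htN (by
    rw [hNs]; rfl)
  have hnotal : ∀ e, T.State c e → ¬ T.State c (T.al e) := by
    intro e he h
    have h1 := h.1
    rw [T.lf_al] at h1
    rw [he.2] at h1
    exact Bool.noConfusion h1
  -- `χ` at `lf d`
  have hd1 : χ (T.lf d) - χ b = 1 := by
    have h := hχ d
    have hone : T.cnt (fun k : ℕ => T.st c d (k : ℤ)) N d = 1 := by
      refine cnt_one T 0 hN rfl ?_ ?_
      · intro k hk hkd
        by_contra hne
        exact hNinj 0 k (by omega) hk hkd.symm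
      · intro k _ h
        exact hnotal d hs (h ▸ hs.st k)
    rw [hone, hd] at h
    exact h.symm
  have hEconst := const_on_conn T hEc χ (by
    intro e h1 h2
    have h := hχ e
    have e1 : T.cnt (fun k : ℕ => T.st c d (k : ℤ)) N e = 0 := by
      refine hnl N e ?_ ?_
      · intro h
        have h3 := hcE _ h2
        rw [h.2] at h3
        exact Bool.noConfusion h3
      · intro h
        have h3 := hcE _ h1
        have h4 := h.2
        rw [T.rt_al] at h4
        rw [h4] at h3
        exact Bool.noConfusion h3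
    omega)
  -- positions
  have hrt : ∀ i : ℕ, T.rt ((T.rho ^ i) d) = b := fun i => (rt_rho_pow T d i).trans hd
  have hcr : T.cnt (fun k : ℕ => T.st c d (k : ℤ)) N ((T.rho ^ r) d) = 1 := by
    rw [hχ, hrt r, hEconst _ hEr _ hE0]
    exact hd1
  obtain ⟨m, hmN, hm⟩ := exists_of_cnt_pos T (show 0 < T.cnt (fun k : ℕ => T.st c d (k : ℤ)) N
    ((T.rho ^ r) d) by rw [hcr]; exact Int.one_pos)
  obtain ⟨M, hM, hMd, hMinj⟩ := rho_period T d
  have hnM : n ≤ M := by
    by_contra hc
    push Not at hc
    exact hinj 0 M hM hc hMd.symm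
  -- the new path
  let rot : ℕ → D := fun k => (T.rho ^ k) ((T.rho ^ r) d)
  have hrot : ∀ k, rot k = (T.rho ^ (k + r)) d := by
    intro k
    change (T.rho ^ k) ((T.rho ^ r) d) = _
    rw [pow_add]
    rfl
  have hjoin : (fun k : ℕ => T.st c d (k : ℤ)) m = rot 0 := hm
  have hturn := jn_turn T hjoin (show T.IsTurn (fun k : ℕ => T.st c d (k : ℤ)) m by
    have h := st_turn T hs 0 m
    simpa using h) (rot_turn T ((T.rho ^ r) d) (M - r))
  obtain ⟨χ', _, hχ'⟩ := hT _ _ hturn (by
    rw [jn_add, jn_zero _ _ _ hjoin]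
    change (T.rho ^ (M - r)) ((T.rho ^ r) d) = T.st c d ((0 : ℕ) : ℤ)
    have h := hrot (M - r)
    change (T.rho ^ (M - r)) ((T.rho ^ r) d) = _ at h
    rw [h, Nat.sub_add_cancel (by omega), hMd]
    rfl)
  have hsplit : ∀ e, χ' (T.lf e) - χ' (T.rt e) =
      T.cnt (fun k : ℕ => T.st c d (k : ℤ)) m e + T.cnt rot (M - r) e := by
    intro e
    rw [← hχ' e]
    exact jn_cnt T _ _ m (M - r) e
  -- `χ'` is constant on `Z`
  have hZconst := const_on_conn T hZc χ' (by
    intro e h1 h2
    have h := hsplit e
    have e1 : T.cnt (fun k : ℕ => T.st c d (k : ℤ)) m e = 0 := by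
      refine hnl m e ?_ ?_
      · intro h; exact absurd h.1 (by rw [hcZ _ h1]; simp)
      · intro h
        have h3 := h.1
        rw [T.lf_al] at h3
        rw [hcZ _ h2] at h3
        exact Bool.noConfusion h3
    have e2 : T.cnt rot (M - r) e = 0 := by
      refine cnt_zero T ?_ ?_
      · intro k _ h
        apply hbZ
        rw [← hrt (k + r), ← hrot k, h]
        exact h2
      · intro k _ h
        apply hbZ
        rw [← hrt (k + r), ← hrot k, h, T.rt_al]
        exact h1
    omega)
  -- darts from `Z` to `b` are not on the interface part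
  have hZb : ∀ i : ℕ, T.lf ((T.rho ^ i) d) ∈ Z →
      T.cnt (fun k : ℕ => T.st c d (k : ℤ)) m ((T.rho ^ i) d) = 0 := by
    intro i hi
    refine hnl m _ ?_ ?_
    · intro h; exact absurd h.1 (by rw [hcZ _ hi]; simp)
    · intro h
      have h3 := h.1
      rw [T.lf_al, hrt i, hcb] at h3
      exact Bool.noConfusion h3
  have hal : ∀ (i k : ℕ), T.lf ((T.rho ^ i) d) ∈ Z → rot k ≠ T.al ((T.rho ^ i) d) := by
    intro i k hi h
    apply hbZ
    rw [← hrt (k + r), ← hrot k, h, T.rt_al]
    exact hi
  -- first position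
  have f1 : χ' (T.lf ((T.rho ^ q) d)) = χ' b := by
    have h := hsplit ((T.rho ^ q) d)
    rw [hZb q hZq, hrt q] at h
    have e2 : T.cnt rot (M - r) ((T.rho ^ q) d) = 0 := by
      refine cnt_zero T ?_ (fun k _ => hal q k hZq)
      intro k hk h
      rw [hrot k] at h
      exact hMinj q (k + r) (by omega) (by omega) h.symm
    omega
  have f2 : χ' (T.lf ((T.rho ^ u) d)) = χ' b + 1 := by
    have h := hsplit ((T.rho ^ u) d)
    rw [hZb u hZu, hrt u] at h
    have e2 : T.cnt rot (M - r) ((T.rho ^ u) d) = 1 := by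
      refine cnt_one T (u - r) (by omega) ?_ ?_ (fun k _ => hal u k hZu)
      · rw [hrot, Nat.sub_add_cancel (by omega)]
      · intro k hk h
        rw [hrot k] at h
        by_contra hne
        rcases lt_or_gt_of_ne hne with h1 | h1
        · exact hMinj (k + r) u (by omega) (by omega) h
        · exact hMinj u (k + r) (by omega) (by omega) h.symm
    omega
  have f3 := hZconst _ hZq _ hZu
  omega

end Pool.Agent.BS.H96
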