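import Pool.Agent.Helper96_BS.WinB

/-! # BS module CUT: existence of cut times -/

set_option autoImplicit false

namespace Pool.Agent.BS.H96

open Function Pool.Agent.BS Filter Topology

variable {D V : Type}

theorem avg_bdd (f : ℕ → ℤ) (K : ℕ) (hf : ∀ k, |f k| ≤ (K : ℤ)) (a : ℝ) (ha : 0 < a)
    (h : Tendsto (fun n : ℕ => (∑ k ∈ Finset.range n, (f k : ℝ)) / n) atTop (𝓝 a)) :
    ∃ C : ℤ, ∀ n, -C ≤ ∑ k ∈ Finset.range n, f k := by
  have h1 : ∀ᶠ n : ℕ in atTop, 0 < (∑ k ∈ Finset.range n, (f k : ℝ)) / n :=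
    h.eventually (lt_mem_nhds ha)
  obtain ⟨n0, hn0⟩ := eventually_atTop.1 h1
  refine ⟨(K : ℤ) * n0, ?_⟩
  intro n
  rcases le_or_gt n0 n with h2 | h2
  · have h3 := hn0 n h2
    have h4 : (0 : ℝ) < ∑ k ∈ Finset.range n, (f k : ℝ) := by
      by_contra hc
      push Not at hc
      have h5 : (∑ k ∈ Finset.range n, (f k : ℝ)) / n ≤ 0 :=
        div_nonpos_of_nonpos_of_nonneg hc (Nat.cast_nonneg n)
      linarith
    have h6 : (0 : ℤ) < ∑ k ∈ Finset.range n, f k := by exact_mod_cast h4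
    have h7 : (0 : ℤ) ≤ (K : ℤ) * n0 := by positivity
    linarith
  · have h3 : -((K : ℤ) * n) ≤ ∑ k ∈ Finset.range n, f k := by
      have e1 : -((K : ℤ) * n) = ∑ k ∈ Finset.range n, (-(K : ℤ)) := by
        rw [Finset.sum_const, Finset.card_range, nsmul_eq_mul]
        ring
      rw [e1]
      exact Finset.sum_le_sum fun k _ => (abs_le.1 (hf k)).1
    have h4 : (K : ℤ) * n ≤ K * n0 :=
      mul_le_mul_of_nonneg_left (by exact_mod_cast h2.le) (Int.natCast_nonneg K)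
    linarith

theorem cut : CutStmt := by
  intro D V T Δ K θ c s a hT hΔ hθ hs hinj ha hF hB
  classical
  have hV : Infinite V := inf D V T K θ hθ ⟨T.lf s⟩
  obtain ⟨C1, hC1⟩ := avg_bdd (fun k => θ (T.st c s (k : ℤ))) K (fun k => hθ.bdd _) a ha hF
  obtain ⟨C2, hC2⟩ := avg_bdd (fun k => θ (T.st c s (-(k : ℤ)))) K (fun k => hθ.bdd _) a ha hB
  -- lower bound for sums over windows around zero
  have hlow : ∀ j i : ℤ, j ≤ 0 → 0 < i → -(C1 + C2 + K) ≤ ∑ k ∈ Finset.Ico j i, θ (T.st c s k) := by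
    intro j i hj hi
    obtain ⟨n, rfl⟩ : ∃ n : ℕ, j = -(n : ℤ) := ⟨(-j).toNat, by omega⟩
    obtain ⟨m, rfl⟩ : ∃ m : ℕ, i = (0 : ℤ) + m := ⟨i.toNat, by omega⟩
    have e1 : ∑ k ∈ Finset.Ico (-(n : ℤ)) (0 + m), θ (T.st c s k)
        = ∑ k ∈ Finset.Ico (-(n : ℤ)) 0, θ (T.st c s k)
          + ∑ k ∈ Finset.Ico (0 : ℤ) (0 + m), θ (T.st c s k) := by
      rw [← Finset.sum_union]
      · congr 1
        ext x
        simp only [Finset.mem_union, Finset.mem_Ico]
        omega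
      · rw [Finset.disjoint_left]
        intro x h1 h2
        rw [Finset.mem_Ico] at h1 h2
        omega
    have e2 : ∑ k ∈ Finset.Ico (-(n : ℤ)) 0, θ (T.st c s k)
        = ∑ k ∈ Finset.range (n + 1), θ (T.st c s (-(k : ℤ))) - θ (T.st c s 0) := by
      have h1 := Ico_sum (fun k => θ (T.st c s k)) (-(n : ℤ)) n
      rw [neg_add_cancel] at h1
      rw [h1, Finset.sum_range_succ', ← Finset.sum_range_reflect]
      have e3 : ∑ k ∈ Finset.range n, θ (T.st c s (-(n : ℤ) + ((n - 1 - k : ℕ) : ℤ)))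
          = ∑ k ∈ Finset.range n, θ (T.st c s (-((k + 1 : ℕ) : ℤ))) := by
        refine Finset.sum_congr rfl ?_
        intro k hk
        rw [Finset.mem_range] at hk
        congr 2
        omega
      rw [e3]
      simp
    have e4 : ∑ k ∈ Finset.Ico (0 : ℤ) (0 + m), θ (T.st c s k)
        = ∑ k ∈ Finset.range m, θ (T.st c s (k : ℤ)) := by
      rw [Ico_sum]
      refine Finset.sum_congr rfl ?_
      intro k _
      rw [zero_add]
    rw [e1, e2, e4]
    have h1 := hC1 m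
    have h2 := hC2 (n + 1)
    have h3 := (abs_le.1 (hθ.bdd (T.st c s 0))).2
    linarith
  let S : Set ℕ := {i | 0 < i ∧ ∃ j : ℤ, j ≤ 0 ∧ T.rt (T.st c s j) = T.rt (T.st c s (i : ℤ))}
  have hbdd : BddAbove S := by
    refine ⟨((K : ℤ) * Δ * Δ + Δ * (C1 + C2 + K)).toNat, ?_⟩
    rintro i ⟨hi, j, hj, hji⟩
    obtain ⟨χ, _, _, _, _, _, _, h⟩ := winB D V T c s hT hV hs hinj j i (by omega) hji
    have h1 := h Δ K θ hΔ hθ
    have h2 := hlow j i hj (by exact_mod_cast hi)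
    have h3 : (Δ : ℤ) * -(C1 + C2 + K) ≤ Δ * ∑ k ∈ Finset.Ico j (i : ℤ), θ (T.st c s k) :=
      mul_le_mul_of_nonneg_left h2 (Int.natCast_nonneg Δ)
    have h4 : (Δ : ℤ) * -(C1 + C2 + K) = -(Δ * (C1 + C2 + K)) := by ring
    have h5 : (i : ℤ) ≤ (K : ℤ) * Δ * Δ + Δ * (C1 + C2 + K) := by linarith
    omega
  by_cases hne : S.Nonempty
  · have hM := Nat.sSup_mem hne hbdd
    set M := sSup S with hMdef
    have hmax : ∀ i ∈ S, i ≤ M := fun i hi => le_csSup hbdd hi
    obtain ⟨hM0, j0, hj0, hj0M⟩ := hM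
    have hno : ∀ (j i : ℤ), j ≤ 0 → (M : ℤ) < i → T.rt (T.st c s j) ≠ T.rt (T.st c s i) := by
      intro j i hj hi h
      have h1 := hmax i.toNat ⟨by omega, j, hj, by
        rw [Int.toNat_of_nonneg (by omega)]
        exact h⟩
      omega
    refine ⟨M, ?_⟩
    intro j i hj hi h
    rcases le_or_gt j 0 with h1 | h1
    · exact hno j i h1 hi h
    · rcases hj.lt_or_eq with h2 | h2
      · obtain ⟨χ, _, _, _, hin, hout, _, _⟩ :=
          winB D V T c s hT hV hs hinj j0 M (by omega) hj0M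
        have h3 := hin j (by omega) (by omega)
        have h4 := hout i (Or.inr hi) (fun h5 => hno j0 i hj0 hi h5.symm)
        rw [h, h4] at h3
        omega
      · rw [h2, ← hj0M] at h
        exact hno j0 i hj0 hi h
  · refine ⟨0, ?_⟩
    intro j i hj hi h
    apply hne
    refine ⟨i.toNat, by omega, j, by exact_mod_cast hj, ?_⟩
    rw [Int.toNat_of_nonneg (by omega)]
    exact h

end Pool.Agent.BS.H96
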