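import Pool.Agent.Helper47_BS.Stmts

/-! # BS module FLUX: flux identities -/

set_option autoImplicit false

namespace Pool.Agent.BS.H96

open Function Pool.Agent.BS

variable {D V : Type}

theorem al_eq_iff (T : TMap D V) (d e : D) : d = T.al e ↔ T.al d = e := by
  constructor
  · rintro rfl; exact T.al_al e
  · rintro rfl; exact (T.al_al d).symm

/-- an antisymmetric function sums to zero over a set of darts closed under `al` -/
theorem sum_anti_zero (T : TMap D V) (G : Finset D) (hG : ∀ d ∈ G, T.al d ∈ G) (f : D → ℤ)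
    (hf : ∀ d ∈ G, f (T.al d) = - f d) : ∑ d ∈ G, f d = 0 := by
  have h : ∑ d ∈ G, f d = ∑ d ∈ G, f (T.al d) := by
    refine Finset.sum_bij' (fun d _ => T.al d) (fun d _ => T.al d) hG hG ?_ ?_ ?_
    · intro d _; exact T.al_al d
    · intro d _; exact T.al_al d
    · intro d _; rw [T.al_al]
  have h2 : ∑ d ∈ G, f (T.al d) = - ∑ d ∈ G, f d := by
    rw [Finset.sum_congr rfl hf, Finset.sum_neg_distrib]
  have h3 : ∑ d ∈ G, f d = - ∑ d ∈ G, f d := h.trans h2
  omega

theorem sum_star_biUnion (T : TMap D V) [DecidableEq D] (S : Finset V) (f : D → ℤ) :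
    ∑ d ∈ S.biUnion T.star, f d = ∑ v ∈ S, ∑ d ∈ T.star v, f d := by
  apply Finset.sum_biUnion
  intro v _ w _ hvw
  rw [Function.onFun, Finset.disjoint_left]
  intro d h1 h2
  rw [T.mem_star] at h1 h2
  exact hvw (h1.symm.trans h2)

theorem flux : FluxStmt := by
  intro D V T K θ p n χ F hθ hcnt hF
  classical
  let G0 : Finset D := F.biUnion T.star ∪ (Finset.range n).image p
  let G : Finset D := G0 ∪ G0.image T.al
  have hG : ∀ d ∈ G, T.al d ∈ G := by
    intro d hd
    simp only [G, Finset.mem_union, Finset.mem_image] at hd ⊢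
    rcases hd with h | ⟨e, he, rfl⟩
    · exact Or.inr ⟨d, h, rfl⟩
    · left; rw [T.al_al]; exact he
  have hp : ∀ k ∈ Finset.range n, p k ∈ G := by
    intro k hk
    simp only [G, G0, Finset.mem_union, Finset.mem_image]
    exact Or.inl (Or.inr ⟨k, hk, rfl⟩)
  -- first computation
  have h1 : ∑ d ∈ G, T.cnt p n d * θ d = 2 * ∑ k ∈ Finset.range n, θ (p k) := by
    unfold TMap.cnt
    simp only [Finset.sum_mul]
    rw [Finset.sum_comm, Finset.mul_sum]
    refine Finset.sum_congr rfl ?_
    intro k hk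
    have e1 : ∀ d ∈ G, ((if p k = d then (1 : ℤ) else 0) - (if p k = T.al d then 1 else 0)) * θ d
        = (if p k = d then θ d else 0) - (if T.al (p k) = d then θ d else 0) := by
      intro d _
      rw [al_eq_iff]
      split_ifs <;> ring
    rw [Finset.sum_congr rfl e1, Finset.sum_sub_distrib, Finset.sum_ite_eq, Finset.sum_ite_eq,
      if_pos (hp k hk), if_pos (hG _ (hp k hk)), hθ.anti]
    ring
  -- second computation
  have h2 : ∑ d ∈ G, T.cnt p n d * θ d = 2 * ∑ d ∈ G, χ (T.lf d) * θ d := by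
    have h3 : ∑ d ∈ G, (χ (T.lf d) + χ (T.rt d)) * θ d = 0 := by
      refine sum_anti_zero T G hG _ ?_
      intro d _
      rw [T.lf_al, T.rt_al, hθ.anti]
      ring
    have h4 : ∑ d ∈ G, T.cnt p n d * θ d
        = ∑ d ∈ G, (2 * (χ (T.lf d) * θ d) - (χ (T.lf d) + χ (T.rt d)) * θ d) := by
      refine Finset.sum_congr rfl ?_
      intro d _
      rw [hcnt]
      ring
    rw [h4, Finset.sum_sub_distrib, h3, ← Finset.mul_sum, sub_zero]
  have h5 : ∑ d ∈ G, χ (T.lf d) * θ d = ∑ v ∈ F, χ v * ∑ d ∈ T.star v, θ d := by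
    have h6 : ∑ d ∈ F.biUnion T.star, χ (T.lf d) * θ d = ∑ d ∈ G, χ (T.lf d) * θ d := by
      refine Finset.sum_subset ?_ ?_
      · intro d hd
        simp only [G, G0, Finset.mem_union]
        exact Or.inl (Or.inl hd)
      · intro d _ hd
        have h7 : T.lf d ∉ F := by
          intro h
          apply hd
          rw [Finset.mem_biUnion]
          exact ⟨_, h, (T.mem_star _ _).2 rfl⟩
        have h8 : χ (T.lf d) = 0 := by
          by_contra hc
          exact h7 (hF _ hc)
        rw [h8, zero_mul]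
    rw [← h6, sum_star_biUnion]
    refine Finset.sum_congr rfl ?_
    intro v _
    rw [Finset.mul_sum]
    refine Finset.sum_congr rfl ?_
    intro d hd
    rw [(T.mem_star v d).1 hd]
  omega

theorem fluxSet : FluxSetStmt := by
  intro D V T K θ S hθ
  classical
  have h1 : (S.card : ℤ) ≤ ∑ v ∈ S, ∑ d ∈ T.star v, θ d := by
    have : (S.card : ℤ) = ∑ v ∈ S, (1 : ℤ) := by simp
    rw [this]
    exact Finset.sum_le_sum fun v _ => hθ.div v
  rw [← sum_star_biUnion] at h1
  refine h1.trans (le_of_eq ?_)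
  have h2 := Finset.sum_filter_add_sum_filter_not (S.biUnion T.star) (fun d => T.rt d ∉ S) θ
  rw [← h2]
  have h3 : ∑ d ∈ (S.biUnion T.star).filter (fun d => ¬ (T.rt d ∉ S)), θ d = 0 := by
    refine sum_anti_zero T _ ?_ θ (fun d _ => hθ.anti d)
    intro d hd
    simp only [Finset.mem_filter, Finset.mem_biUnion, not_not, T.mem_star] at hd ⊢
    obtain ⟨⟨v, hv, rfl⟩, h⟩ := hd
    exact ⟨⟨_, h, T.lf_al d⟩, by rw [T.rt_al]; exact hv⟩
  rw [h3, add_zero]
  unfold TMap.bd
  refine Finset.sum_congr ?_ (fun _ _ => rfl)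
  ext d
  simp only [Finset.mem_filter, Finset.mem_biUnion]

theorem inf : InfStmt := by
  intro D V T K θ hθ hne
  by_contra h
  rw [not_infinite_iff_finite] at h
  have : Fintype V := Fintype.ofFinite V
  have h1 := fluxSet D V T K θ Finset.univ hθ
  have h2 : T.bd Finset.univ = ∅ := by
    classical
    unfold TMap.bd
    ext d
    simp
  rw [h2, Finset.sum_empty] at h1
  have h3 : 0 < Fintype.card V := Fintype.card_pos
  rw [Finset.card_univ] at h1
  omega

end Pool.Agent.BS.H96
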