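import Pool.Agent.Helper47_BS.Stmts

/-! # BS module MIRP: the mirror image of a planar map is planar -/

set_option autoImplicit false

namespace Pool.Agent.BS.H96

open Function Pool.Agent.BS

variable {D V : Type}

theorem cnt_rev (T : TMap D V) (p : ℕ → D) (n : ℕ) (h : p n = p 0) (d : D) :
    T.cnt (fun k => p (n - k)) n d = T.cnt p n d := by
  classical
  unfold TMap.cnt
  set g : ℕ → ℤ := fun k => ((if p k = d then (1 : ℤ) else 0) - (if p k = T.al d then 1 else 0))
    with hg
  have e1 : ∑ k ∈ Finset.range n, ((if p (n - k) = d then (1 : ℤ) else 0)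
      - (if p (n - k) = T.al d then 1 else 0)) = ∑ k ∈ Finset.range n, g (n - k) := rfl
  rw [e1]
  have e2 : ∑ k ∈ Finset.range n, g (n - k) = ∑ k ∈ Finset.range n, g (k + 1) := by
    rw [← Finset.sum_range_reflect]
    refine Finset.sum_congr rfl ?_
    intro k hk
    rw [Finset.mem_range] at hk
    congr 1
    omega
  rw [e2]
  have e3 := Finset.sum_range_succ g n
  have e4 := Finset.sum_range_succ' g n
  have e5 : g n = g 0 := by simp only [hg, h]
  have e6 : ∑ k ∈ Finset.range n, g (k + 1) = ∑ k ∈ Finset.range n, g k := by linarith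
  rw [e6]

theorem mirPlanar : MirPlanarStmt := by
  intro D V T hT p n hp hn
  have h1 : T.IsTurn (fun k => p (n - k)) n := by
    intro k hk
    have h2 := hp (n - (k + 1)) (by omega)
    have e : n - (k + 1) + 1 = n - k := by omega
    rw [e, TMap.mirror_lam, TMap.mirror_rho] at h2
    rcases h2 with h2 | h2
    · left
      change p (n - (k + 1)) = T.lam (p (n - k))
      rw [h2, Equiv.apply_symm_apply]
    · right
      change p (n - (k + 1)) = T.rho (p (n - k))
      rw [h2, Equiv.apply_symm_apply]
  obtain ⟨χ, hf, hχ⟩ := hT (fun k => p (n - k)) n h1 (by simp [hn])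
  refine ⟨χ, hf, ?_⟩
  intro d
  have h3 := hχ d
  rw [cnt_rev T p n hn d] at h3
  exact h3

end Pool.Agent.BS.H96
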