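import Pool.Agent.Helper96_BS.WinB

/-! # BS module WINA: windows with equal left ends -/

set_option autoImplicit false

namespace Pool.Agent.BS.H96

open Function Pool.Agent.BS

variable {D V : Type}

theorem nx_neg (T : TMap D V) (c : V → Bool) (d : D) :
    T.nx (fun v => !(c v)) (T.al d) = T.al (T.pv c d) := by
  unfold TMap.nx TMap.pv
  rw [T.tau_al]
  by_cases h : c (T.rt (T.lam.symm d)) = true
  · rw [if_pos h, if_neg (by simp [h]), T.rho_symm_apply, T.al_al]
  · rw [if_neg h, if_pos (by simpa using h), T.rho_apply, T.al_al]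

theorem pv_neg (T : TMap D V) (c : V → Bool) (d : D) :
    T.pv (fun v => !(c v)) (T.al d) = T.al (T.nx c d) := by
  have h := nx_neg T.mirror c d
  rw [T.mirror_nx, T.mirror_pv, T.mirror_al] at h
  exact h

theorem st_neg (T : TMap D V) (c : V → Bool) (s : D) (k : ℤ) :
    T.st (fun v => !(c v)) (T.al s) k = T.al (T.st c s (-k)) := by
  obtain ⟨n, rfl | rfl⟩ := k.eq_nat_or_neg
  · rw [TMap.st_natCast, TMap.st_neg_natCast]
    induction n with
    | zero => rfl
    | succ n ih => rw [iterate_succ_apply', iterate_succ_apply', ih, nx_neg]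
  · rw [neg_neg, TMap.st_natCast, TMap.st_neg_natCast]
    induction n with
    | zero => rfl
    | succ n ih => rw [iterate_succ_apply', iterate_succ_apply', ih, pv_neg]

theorem state_neg (T : TMap D V) {c : V → Bool} {s : D} (h : T.State c s) :
    T.State (fun v => !(c v)) (T.al s) := by
  refine ⟨?_, ?_⟩
  · change (!(c (T.rt s))) = true
    rw [h.2]; rfl
  · change (!(c (T.rt (T.al s)))) = false
    rw [T.rt_al, h.1]; rfl

theorem winA : WinAStmt := by
  intro D V T c s hT hV hs hinj j i hji ha
  have hst := st_neg T c s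
  have h := winB D V T (fun v => !(c v)) (T.al s) hT hV (state_neg T hs) (by
    intro x y hxy
    rw [hst, hst] at hxy
    have := hinj (T.al.injective hxy)
    omega) (-i) (-j) (by omega) (by
    rw [hst, hst, neg_neg, neg_neg, T.rt_al, T.rt_al, ha])
  obtain ⟨χ, h1, h2, h3, h4, h5, h6, _⟩ := h
  simp only [hst, T.lf_al, T.rt_al] at h3 h4 h5 h6
  refine ⟨fun v => - χ v, ?_, ?_, ?_, ?_, ?_, ?_⟩
  · refine h1.subset ?_
    intro v hv
    rw [mem_support] at hv ⊢
    intro h
    apply hv
    rw [h]
    rfl
  · intro v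
    have h := h2 v
    change -χ v = 0 ∨ -χ v = 1
    omega
  · intro k
    have h := h3 (-k)
    rw [neg_neg] at h
    change -χ _ = 0
    rw [h]
    rfl
  · intro k hk1 hk2
    have h := h4 (-k) (by omega) (by omega)
    rw [neg_neg] at h
    change -χ _ = 1
    rw [h]
    rfl
  · intro k hk1 hk2
    have h := h5 (-k) (by omega) (by
      rw [neg_neg, neg_neg, ← ha]
      exact hk2)
    rw [neg_neg] at h
    change -χ _ = 0
    rw [h]
    rfl
  · intro d hd1 hd2 hd3
    rw [neg_neg, ← ha] at h6
    have h := h6 d (by rw [hd1]) hd2 hd3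
    change -χ _ = -χ _
    rw [h]

end Pool.Agent.BS.H96
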