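import Pool.Agent.Helper47_BS.Stmts

/-! # BS: paths of darts, counting passages -/

set_option autoImplicit false

namespace Pool.Agent.BS.H96

open Function Pool.Agent.BS

variable {D V : Type}

theorem cnt_zero (T : TMap D V) {p : ℕ → D} {n : ℕ} {d : D} (h1 : ∀ k < n, p k ≠ d)
    (h2 : ∀ k < n, p k ≠ T.al d) : T.cnt p n d = 0 := by
  unfold TMap.cnt
  refine Finset.sum_eq_zero ?_
  intro k hk
  rw [Finset.mem_range] at hk
  rw [if_neg (h1 k hk), if_neg (h2 k hk)]
  rfl

theorem cnt_one (T : TMap D V) {p : ℕ → D} {n : ℕ} {d : D} (k0 : ℕ) (hk0 : k0 < n)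
    (h0 : p k0 = d) (h1 : ∀ k < n, p k = d → k = k0) (h2 : ∀ k < n, p k ≠ T.al d) :
    T.cnt p n d = 1 := by
  unfold TMap.cnt
  rw [Finset.sum_eq_single k0]
  · rw [if_pos h0, if_neg (h2 k0 hk0)]
    rfl
  · intro k hk hne
    rw [Finset.mem_range] at hk
    rw [if_neg (fun h => hne (h1 k hk h)), if_neg (h2 k hk)]
    rfl
  · intro h
    exact absurd (Finset.mem_range.2 hk0) h

theorem cnt_nonneg (T : TMap D V) {p : ℕ → D} {n : ℕ} {d : D} (h2 : ∀ k < n, p k ≠ T.al d) :
    0 ≤ T.cnt p n d := by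
  unfold TMap.cnt
  refine Finset.sum_nonneg ?_
  intro k hk
  rw [Finset.mem_range] at hk
  rw [if_neg (h2 k hk)]
  split_ifs <;> simp

/-- a dart with positive count is on the path -/
theorem exists_of_cnt_pos (T : TMap D V) {p : ℕ → D} {n : ℕ} {d : D} (h : 0 < T.cnt p n d) :
    ∃ k < n, p k = d := by
  by_contra hc
  push Not at hc
  have : T.cnt p n d ≤ 0 := by
    unfold TMap.cnt
    refine Finset.sum_nonpos ?_
    intro k hk
    rw [Finset.mem_range] at hk
    rw [if_neg (hc k hk)]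
    split_ifs <;> simp
  omega

/-- a dart with nonzero count is on the path, or its reverse is -/
theorem exists_of_cnt_ne (T : TMap D V) {p : ℕ → D} {n : ℕ} {d : D} (h : T.cnt p n d ≠ 0) :
    ∃ k < n, p k = d ∨ p k = T.al d := by
  by_contra hc
  push Not at hc
  exact h (cnt_zero T (fun k hk => (hc k hk).1) (fun k hk => (hc k hk).2))

/-- concatenation of paths -/
def jn (p q : ℕ → D) (m : ℕ) : ℕ → D := fun k => if k < m then p k else q (k - m)

theorem jn_lt (p q : ℕ → D) {m k : ℕ} (h : k < m) : jn p q m k = p k := if_pos h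

theorem jn_add (p q : ℕ → D) (m k : ℕ) : jn p q m (m + k) = q k := by
  unfold jn
  rw [if_neg (by omega), Nat.add_sub_cancel_left]

theorem jn_zero (p q : ℕ → D) (m : ℕ) (h : p m = q 0) : jn p q m 0 = p 0 := by
  rcases Nat.eq_zero_or_pos m with rfl | hm
  · rw [show (0 : ℕ) = 0 + 0 from rfl, jn_add]
    exact h.symm
  · exact jn_lt p q hm

theorem jn_turn (T : TMap D V) {p q : ℕ → D} {m n : ℕ} (h : p m = q 0) (hp : T.IsTurn p m)
    (hq : T.IsTurn q n) : T.IsTurn (jn p q m) (m + n) := by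
  intro k hk
  rcases lt_or_ge k m with h1 | h1
  · rw [jn_lt p q h1]
    have h2 : jn p q m (k + 1) = p (k + 1) := by
      rcases lt_or_ge (k + 1) m with h3 | h3
      · exact jn_lt p q h3
      · have e : k + 1 = m + 0 := by omega
        rw [e, jn_add, ← h]
        rfl
    rw [h2]
    exact hp k h1
  · obtain ⟨l, rfl⟩ := Nat.exists_eq_add_of_le h1
    rw [jn_add, add_assoc, jn_add]
    exact hq l (by omega)

theorem jn_cnt (T : TMap D V) (p q : ℕ → D) (m n : ℕ) (d : D) :
    T.cnt (jn p q m) (m + n) d = T.cnt p m d + T.cnt q n d := by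
  unfold TMap.cnt
  rw [Finset.sum_range_add]
  congr 1
  · refine Finset.sum_congr rfl ?_
    intro k hk
    rw [Finset.mem_range] at hk
    rw [jn_lt p q hk]
  · refine Finset.sum_congr rfl ?_
    intro k _
    rw [jn_add]

theorem rot_turn (T : TMap D V) (e : D) (n : ℕ) : T.IsTurn (fun k => (T.rho ^ k) e) n := by
  intro k _
  right
  change (T.rho ^ (k + 1)) e = T.rho ((T.rho ^ k) e)
  rw [pow_succ']
  rfl

theorem rt_rho_pow (T : TMap D V) (e : D) (k : ℕ) : T.rt ((T.rho ^ k) e) = T.rt e := by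
  induction k with
  | zero => rfl
  | succ k ih =>
    rw [pow_succ']
    change T.rt (T.rho ((T.rho ^ k) e)) = _
    rw [T.rt_rho, ih]

theorem nx_turn (T : TMap D V) (c : V → Bool) (e : D) : T.nx c e = T.lam e ∨ T.nx c e = T.rho e := by
  unfold TMap.nx
  split_ifs
  · exact Or.inr rfl
  · exact Or.inl rfl

theorem st_turn (T : TMap D V) {c : V → Bool} {s : D} (h : T.State c s) (j : ℤ) (n : ℕ) :
    T.IsTurn (fun k => T.st c s (j + k)) n := by
  intro k _
  have e : (j + ((k + 1 : ℕ) : ℤ)) = (j + k) + 1 := by push_cast; ring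
  change T.st c s (j + ((k + 1 : ℕ) : ℤ)) = _ ∨ T.st c s (j + ((k + 1 : ℕ) : ℤ)) = _
  rw [e, h.st_succ]
  exact nx_turn T c _

theorem finite_lf (T : TMap D V) {S : Set V} (h : S.Finite) : {e | T.lf e ∈ S}.Finite := by
  classical
  refine Set.Finite.subset ((h.toFinset.biUnion T.star).finite_toSet) ?_
  intro e he
  rw [Finset.mem_coe, Finset.mem_biUnion]
  exact ⟨T.lf e, h.mem_toFinset.2 he, (T.mem_star _ _).2 rfl⟩

theorem finite_rt (T : TMap D V) {S : Set V} (h : S.Finite) : {e | T.rt e ∈ S}.Finite := by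
  refine Set.Finite.subset ((finite_lf T h).image T.al) ?_
  intro e he
  exact ⟨T.al e, he, T.al_al e⟩

/-- existence of a minimal period -/
theorem exists_period (x : ℕ → D) (hc : ∀ i j, i < j → x i = x j → x (j - i) = x 0)
    (hf : ∃ i j, i < j ∧ x i = x j) :
    ∃ N, 0 < N ∧ x N = x 0 ∧ ∀ i j, i < j → j < N → x i ≠ x j := by
  classical
  have h : ∃ N, 0 < N ∧ x N = x 0 := by
    obtain ⟨i, j, h1, h2⟩ := hf
    exact ⟨j - i, by omega, hc i j h1 h2⟩
  refine ⟨Nat.find h, (Nat.find_spec h).1, (Nat.find_spec h).2, ?_⟩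
  intro i j hij hj he
  have h3 := hc i j hij he
  exact Nat.find_min h (show j - i < Nat.find h by omega) ⟨by omega, h3⟩

theorem rho_period (T : TMap D V) (d : D) :
    ∃ N, 0 < N ∧ (T.rho ^ N) d = d ∧ ∀ i j, i < j → j < N → (T.rho ^ i) d ≠ (T.rho ^ j) d := by
  have h := exists_period (fun k => (T.rho ^ k) d) ?_ ?_
  · obtain ⟨N, h1, h2, h3⟩ := h
    exact ⟨N, h1, h2, h3⟩
  · intro i j hij h
    change (T.rho ^ i) d = (T.rho ^ j) d at h
    change (T.rho ^ (j - i)) d = d
    have e : j = i + (j - i) := by omega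
    rw [e, pow_add] at h
    exact ((T.rho ^ i).injective h).symm
  · have hfin : {e | T.rt e ∈ ({T.rt d} : Set V)}.Finite := finite_rt T (Set.finite_singleton _)
    obtain ⟨m, n, hmn, he⟩ := hfin.exists_lt_map_eq_of_forall_mem
      (f := fun k => (T.rho ^ k) d) (fun k => rt_rho_pow T d k)
    exact ⟨m, n, hmn, he⟩

theorem st_period (T : TMap D V) {c : V → Bool} {s : D} (hs : T.State c s)
    (hfin : {e | T.State c e}.Finite) :
    ∃ N : ℕ, 0 < N ∧ T.st c s (N : ℤ) = s ∧
      ∀ i j : ℕ, i < j → j < N → T.st c s (i : ℤ) ≠ T.st c s (j : ℤ) := by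
  have h := exists_period (fun k : ℕ => T.st c s (k : ℤ)) ?_ ?_
  · obtain ⟨N, h1, h2, h3⟩ := h
    exact ⟨N, h1, h2, h3⟩
  · intro i j hij h
    change T.st c s (i : ℤ) = T.st c s (j : ℤ) at h
    have h1 := hs.st_sub_nat (i : ℤ) i
    have h2 := hs.st_sub_nat (j : ℤ) i
    rw [h, ← h2] at h1
    have e : ((j - i : ℕ) : ℤ) = (j : ℤ) - i := by push_cast [hij.le]; ring
    rw [e, ← h1]
    simp
  · obtain ⟨m, n, hmn, he⟩ := hfin.exists_lt_map_eq_of_forall_mem
      (f := fun k : ℕ => T.st c s (k : ℤ)) (fun k => hs.st k)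
    exact ⟨m, n, hmn, he⟩

/-- a function on vertices which agrees at both ends of every edge inside a connected set is
constant on it -/
theorem const_on_conn (T : TMap D V) {S : Set V} (hS : T.Conn S) (χ : V → ℤ)
    (h : ∀ d, T.lf d ∈ S → T.rt d ∈ S → χ (T.lf d) = χ (T.rt d)) :
    ∀ x ∈ S, ∀ y ∈ S, χ x = χ y := by
  intro x hx y hy
  have h1 : ∀ y, T.Reach Sᶜ x y → y ∈ S ∧ χ x = χ y := by
    intro y hr
    induction hr with
    | refl => exact ⟨hx, rfl⟩
    | tail _ hb ih =>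
      obtain ⟨h2, d, rfl, rfl⟩ := hb
      have h3 : T.rt d ∈ S := by
        by_contra hc
        exact h2 hc
      exact ⟨h3, ih.2.trans (h d ih.1 h3)⟩
  exact (h1 y (hS x hx y hy)).2

end Pool.Agent.BS.H96
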