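import Pool.Agent.Helper96_BS.Paths
import Pool.Agent.Helper96_BS.Flux

/-! # BS module WINB: windows with equal right ends -/

set_option autoImplicit false

namespace Pool.Agent.BS.H96

open Function Pool.Agent.BS

variable {D V : Type}

theorem lam_pow_rho (T : TMap D V) (d : D) (n : ℕ) :
    (T.rho ^ n) (T.al ((T.lam ^ n) (T.al d))) = d := by
  induction n with
  | zero => exact T.al_al d
  | succ n ih =>
    rw [pow_succ, pow_succ']
    change (T.rho ^ n) (T.rho (T.al (T.lam ((T.lam ^ n) (T.al d))))) = d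
    have e : T.rho (T.al (T.lam ((T.lam ^ n) (T.al d)))) = T.al ((T.lam ^ n) (T.al d)) := by
      rw [T.rho_apply, T.al_al, Equiv.symm_apply_apply]
    rw [e, ih]

/-- the rotation around a right vertex is transitive -/
theorem rho_cyc (T : TMap D V) (d d' : D) (h : T.rt d = T.rt d') : ∃ n : ℕ, (T.rho ^ n) d = d' := by
  obtain ⟨n, hn⟩ := T.cyc (T.al d') (T.al d) h.symm
  refine ⟨n, ?_⟩
  have h1 := lam_pow_rho T d' n
  rw [hn, T.al_al] at h1
  exact h1

/-- existence of boundary darts -/
theorem exists_bd (T : TMap D V) (hV : Infinite V) {S : Set V} (hS : S.Finite) (hne : S.Nonempty) :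
    ∃ d, T.lf d ∈ S ∧ T.rt d ∉ S := by
  by_contra hc
  push Not at hc
  obtain ⟨v0, hv0⟩ := hne
  obtain ⟨d0, hd0⟩ := T.star_ne v0
  rw [T.mem_star] at hd0
  have h1 : ∀ e, T.lf e ∈ S := by
    intro e
    refine T.dart_induction (p := fun e => T.lf e ∈ S) d0 (by rw [hd0]; exact hv0) ?_ ?_ ?_ e
    · intro e he; rw [T.lf_lam]; exact he
    · intro e he; rw [T.lf_lam_symm]; exact he
    · intro e he; exact hc e he
  have h2 : S = Set.univ := by
    ext v
    simp only [Set.mem_univ, iff_true]
    obtain ⟨d, hd⟩ := T.star_ne v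
    rw [T.mem_star] at hd
    rw [← hd]
    exact h1 d
  rw [h2] at hS
  exact Set.infinite_univ hS

theorem Ico_sum (f : ℤ → ℤ) (j : ℤ) (m : ℕ) :
    ∑ k ∈ Finset.Ico j (j + m), f k = ∑ k ∈ Finset.range m, f (j + k) := by
  induction m with
  | zero => simp
  | succ m ih =>
    rw [Finset.sum_range_succ, ← ih]
    have e : Finset.Ico j (j + ((m + 1 : ℕ) : ℤ)) = insert (j + (m : ℤ)) (Finset.Ico j (j + m)) := by
      ext x
      simp only [Finset.mem_insert, Finset.mem_Ico]
      push_cast
      omega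
    rw [e, Finset.sum_insert (by simp)]
    ring

theorem winB : WinBStmt := by
  intro D V T c s hT hV hs hinj j i hji hb
  classical
  obtain ⟨m, hm⟩ : ∃ m : ℕ, i = j + m := ⟨(i - j).toNat, by omega⟩
  have hm0 : 0 < m := by omega
  set b := T.rt (T.st c s j) with hbdef
  have hcb : c b = false := (hs.st j).2
  have hlfo : ∀ k, c (T.lf (T.st c s k)) = true := fun k => (hs.st k).1
  have hrtc : ∀ k, c (T.rt (T.st c s k)) = false := fun k => (hs.st k).2
  have hlfb : ∀ k, T.lf (T.st c s k) ≠ b := by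
    intro k h
    have h1 := hlfo k
    rw [h, hcb] at h1
    exact Bool.noConfusion h1
  have hnotal : ∀ k l, T.st c s k ≠ T.al (T.st c s l) := by
    intro k l h
    have h1 := hlfo k
    rw [h, T.lf_al, hrtc l] at h1
    exact Bool.noConfusion h1
  -- rotation back
  have hex : ∃ M, 0 < M ∧ (T.rho ^ M) (T.st c s i) = T.st c s j := by
    obtain ⟨n, hn⟩ := rho_cyc T (T.st c s i) (T.st c s j) hb.symm
    refine ⟨n, ?_, hn⟩
    rcases Nat.eq_zero_or_pos n with h0 | h0
    · exfalso
      rw [h0] at hn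
      exact absurd (hinj hn) (by omega)
    · exact h0
  obtain ⟨M, hM0, hM, hMmin⟩ : ∃ M, 0 < M ∧ (T.rho ^ M) (T.st c s i) = T.st c s j ∧
      ∀ k < M, (T.rho ^ k) (T.st c s i) ≠ T.st c s j := by
    refine ⟨Nat.find hex, (Nat.find_spec hex).1, (Nat.find_spec hex).2, ?_⟩
    intro k hk h
    rcases Nat.eq_zero_or_pos k with h0 | h0
    · rw [h0] at h
      exact absurd (hinj h) (by omega)
    · exact Nat.find_min hex hk ⟨h0, h⟩
  let rot : ℕ → D := fun k => (T.rho ^ k) (T.st c s i)
  have hrotrt : ∀ k, T.rt (rot k) = b := fun k => (rt_rho_pow T _ k).trans hb.symm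
  let str : ℕ → D := fun k => T.st c s (j + k)
  have hjoin : str m = rot 0 := by
    change T.st c s (j + m) = T.st c s i
    rw [hm]
  have hturn := jn_turn T hjoin (st_turn T hs j m) (rot_turn T (T.st c s i) M)
  obtain ⟨χ, hχf, hχ⟩ := hT _ _ hturn (by
    rw [jn_add, jn_zero _ _ _ hjoin]
    change (T.rho ^ M) (T.st c s i) = T.st c s (j + ((0 : ℕ) : ℤ))
    rw [hM]
    simp)
  have hsplit : ∀ e, χ (T.lf e) - χ (T.rt e) = T.cnt str m e + T.cnt rot M e := by
    intro e
    rw [← hχ e]
    exact jn_cnt T _ _ m M e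
  -- counting on the rotation part
  have hrot0 : ∀ e, T.rt e ≠ b → T.lf e ≠ b → T.cnt rot M e = 0 := by
    intro e h1 h2
    refine cnt_zero T ?_ ?_
    · intro k _ h; exact h1 (by rw [← h, hrotrt])
    · intro k _ h; exact h2 (by rw [← T.rt_al, ← h, hrotrt])
  have hstr0 : ∀ e, ¬ T.State c e → ¬ T.State c (T.al e) → T.cnt str m e = 0 := by
    intro e h1 h2
    refine cnt_zero T ?_ ?_
    · intro k _ h; exact h1 (h ▸ hs.st _)
    · intro k _ h; exact h2 (h ▸ hs.st _)
  have hstr1 : ∀ k : ℕ, k < m → T.cnt str m (T.st c s (j + k)) = 1 := by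
    intro k hk
    refine cnt_one T k hk rfl ?_ (fun l _ => hnotal _ _)
    intro l _ h
    have := hinj h
    omega
  have hstrout : ∀ k : ℤ, (k < j ∨ i ≤ k) → T.cnt str m (T.st c s k) = 0 := by
    intro k hk
    refine cnt_zero T ?_ (fun l _ => hnotal _ _)
    intro l hl h
    have := hinj h
    omega
  -- edges with equal colours not at `b`
  have hedge : ∀ e, c (T.lf e) = c (T.rt e) → T.lf e ≠ b → T.rt e ≠ b →
      χ (T.lf e) = χ (T.rt e) := by
    intro e h1 h2 h3
    have h := hsplit e
    rw [hrot0 e h3 h2, hstr0 e ?_ ?_] at h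
    · omega
    · intro h4
      rw [h4.1, h4.2] at h1
      exact Bool.noConfusion h1
    · intro h4
      have h5 := h4.1
      have h6 := h4.2
      rw [T.lf_al] at h5
      rw [T.rt_al] at h6
      rw [h5, h6] at h1
      exact Bool.noConfusion h1
  -- (1) the left vertices
  have hstep : ∀ k, χ (T.lf (T.st c s (k + 1))) = χ (T.lf (T.st c s k)) := by
    intro k
    rcases hs.lf_succ k with h | h
    · rw [h.1]
    · have h1 := hedge (T.lam (T.st c s k)) (by
        rw [T.lf_lam, T.rt_lam, h.2.2, hlfo k]) (by rw [T.lf_lam]; exact hlfb k)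
        (by rw [T.rt_lam, ← h.2.1]; exact hlfb _)
      rw [T.lf_lam, T.rt_lam] at h1
      rw [h.2.1, h1]
  have hconst : ∀ k : ℤ, χ (T.lf (T.st c s k)) = χ (T.lf (T.st c s 0)) := by
    intro k
    induction k using Int.induction_on with
    | zero => rfl
    | succ n ih => rw [hstep, ih]
    | pred n ih =>
      have h := hstep (-(n : ℤ) - 1)
      rw [sub_add_cancel] at h
      rw [← h, ih]
  have hA : ∀ k : ℤ, χ (T.lf (T.st c s k)) = 0 := by
    by_contra hc
    push Not at hc
    obtain ⟨k0, hk0⟩ := hc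
    have h1 : ∀ k : ℤ, T.lf (T.st c s k) ∈ support χ := by
      intro k
      rw [mem_support, hconst k, ← hconst k0]
      exact hk0
    have h2 := finite_lf T hχf
    have h3 : (Set.range (T.st c s)).Finite := by
      refine h2.subset ?_
      rintro _ ⟨k, rfl⟩
      exact h1 k
    exact (Set.infinite_range_of_injective hinj) h3
  -- (2) `χ b = -1`
  have hχb : χ b = -1 := by
    have h := hsplit (T.st c s j)
    have e1 := hstr1 0 hm0
    simp only [Nat.cast_zero, add_zero] at e1
    have e2 : T.cnt rot M (T.st c s j) = 0 := by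
      refine cnt_zero T hMmin ?_
      intro k _ h
      apply hlfb j
      rw [← T.rt_al, ← h, hrotrt]
    rw [e1, e2, hA j] at h
    change (0 : ℤ) - χ b = 1 + 0 at h
    omega
  -- (3) the right vertices
  have hin : ∀ k, j ≤ k → k ≤ i → χ (T.rt (T.st c s k)) = -1 := by
    intro k h1 h2
    by_cases h3 : T.rt (T.st c s k) = b
    · rw [h3]; exact hχb
    · have h4 : k ≠ i := by
        rintro rfl
        exact h3 hb.symm
      have h := hsplit (T.st c s k)
      obtain ⟨l, rfl⟩ : ∃ l : ℕ, k = j + l := ⟨(k - j).toNat, by omega⟩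
      rw [hstr1 l (by omega), hrot0 _ h3 (hlfb _), hA] at h
      omega
  have hout : ∀ k, (k < j ∨ i < k) → T.rt (T.st c s k) ≠ b → χ (T.rt (T.st c s k)) = 0 := by
    intro k h1 h2
    have h := hsplit (T.st c s k)
    rw [hstrout k (by omega), hrot0 _ h2 (hlfb _), hA] at h
    omega
  -- darts with positive count
  have hpos : ∀ e, 0 < χ (T.lf e) - χ (T.rt e) →
      (χ (T.lf e) = 0 ∧ χ (T.rt e) = -1) ∨ T.rt e = b := by
    intro e he
    rw [← hχ e] at he
    obtain ⟨k, hk, hke⟩ := exists_of_cnt_pos T he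
    rcases lt_or_ge k m with h1 | h1
    · left
      rw [jn_lt _ _ h1] at hke
      rw [← hke]
      exact ⟨hA _, hin _ (by omega) (by omega)⟩
    · right
      obtain ⟨l, rfl⟩ := Nat.exists_eq_add_of_le h1
      rw [jn_add] at hke
      rw [← hke]
      exact hrotrt l
  -- (4) `χ ≤ 0`
  have hle : ∀ v, χ v ≤ 0 := by
    by_contra hc
    push Not at hc
    let S : Set V := {v | 0 < χ v}
    have hSf : S.Finite := hχf.subset (fun v hv => by
      rw [mem_support]; exact ne_of_gt hv)
    have hbS : b ∉ S := by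
      intro h
      have : (0 : ℤ) < χ b := h
      omega
    have hbd : ∀ e, T.lf e ∈ S → T.rt e ∉ S → T.rt e = b := by
      intro e h1 h2
      have h3 : 0 < χ (T.lf e) := h1
      have h4 : ¬ 0 < χ (T.rt e) := h2
      rcases hpos e (by omega) with h | h
      · omega
      · exact h
    obtain ⟨e0, he1, he2⟩ := exists_bd T hV hSf hc
    have he3 := hbd e0 he1 he2
    have hall : ∀ k : ℕ, T.lf ((T.rho ^ k) e0) ∈ S ∧ T.rt ((T.rho ^ k) e0) = b := by
      intro k
      induction k with
      | zero => exact ⟨he1, he3⟩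
      | succ k ih =>
        rw [pow_succ']
        change T.lf (T.rho ((T.rho ^ k) e0)) ∈ S ∧ T.rt (T.rho ((T.rho ^ k) e0)) = b
        have h5 : T.rt (T.rho ((T.rho ^ k) e0)) = b := by rw [T.rt_rho]; exact ih.2
        refine ⟨?_, h5⟩
        by_contra h6
        have h7 := hbd (T.lam ((T.rho ^ k) e0)) (by rw [T.lf_lam]; exact ih.1)
          (by rw [T.rt_lam, ← T.lf_rho]; exact h6)
        rw [T.rt_lam, ← T.lf_rho] at h7
        exact TMap.lf_ne_rt (T := T) _ (h7.trans h5.symm)
    obtain ⟨k, hk⟩ := rho_cyc T e0 (T.st c s j) (he3.trans hbdef)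
    have h8 := (hall k).1
    rw [hk] at h8
    have h9 : 0 < χ (T.lf (T.st c s j)) := h8
    rw [hA j] at h9
    omega
  -- (5) `χ ≥ -1`
  have hge : ∀ v, -1 ≤ χ v := by
    by_contra hc
    push Not at hc
    let S : Set V := {v | χ v < -1}
    have hSf : S.Finite := hχf.subset (fun v hv => by
      rw [mem_support]
      have : χ v < -1 := hv
      omega)
    obtain ⟨e0, he1, he2⟩ := exists_bd T hV hSf hc
    have h3 : χ (T.lf e0) < -1 := he1
    have h4 : ¬ χ (T.rt e0) < -1 := he2
    rcases hpos (T.al e0) (by rw [T.lf_al, T.rt_al]; omega) with h | h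
    · rw [T.rt_al] at h
      omega
    · rw [T.rt_al] at h
      rw [h] at h3
      omega
  refine ⟨χ, hχf, ?_, hA, hin, hout, hedge, ?_⟩
  · intro v
    have h1 := hle v
    have h2 := hge v
    omega
  -- (7) the flux
  intro Δ K θ hΔ hθ
  have hflux := flux D V T K θ _ _ χ hχf.toFinset hθ hχ (by
    intro v hv
    rw [Set.Finite.mem_toFinset]
    exact hv)
  have hsum : ∑ k ∈ Finset.range (m + M), θ (jn str rot m k)
      = ∑ k ∈ Finset.Ico j i, θ (T.st c s k) + ∑ k ∈ Finset.range M, θ (rot k) := by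
    rw [Finset.sum_range_add, hm, Ico_sum]
    congr 1
    · refine Finset.sum_congr rfl ?_
      intro k hk
      rw [Finset.mem_range] at hk
      rw [jn_lt _ _ hk]
    · refine Finset.sum_congr rfl ?_
      intro k _
      rw [jn_add]
  have hcard1 : ∑ v ∈ hχf.toFinset, χ v * ∑ d ∈ T.star v, θ d ≤ -(hχf.toFinset.card : ℤ) := by
    have e1 : -(hχf.toFinset.card : ℤ) = ∑ v ∈ hχf.toFinset, (-1 : ℤ) := by simp
    rw [e1]
    refine Finset.sum_le_sum ?_
    intro v hv
    rw [Set.Finite.mem_toFinset, mem_support] at hv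
    have h1 := hle v
    have h2 := hge v
    have h3 : χ v = -1 := by omega
    rw [h3]
    have h4 := hθ.div v
    omega
  -- window darts
  have hcard2 : ((m : ℤ) + 1) ≤ Δ * (hχf.toFinset.card : ℤ) := by
    let W : Finset D := (Finset.range (m + 1)).image (fun k : ℕ => T.st c s (j + k))
    have hW : W.card = m + 1 := by
      rw [Finset.card_image_of_injective, Finset.card_range]
      intro x y hxy
      have := hinj hxy
      omega
    have hWm : ∀ e ∈ W, T.rt e ∈ hχf.toFinset := by
      intro e he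
      simp only [W, Finset.mem_image, Finset.mem_range] at he
      obtain ⟨k, hk, rfl⟩ := he
      rw [Set.Finite.mem_toFinset, mem_support, hin _ (by omega) (by omega)]
      omega
    have h1 : W.card ≤ Δ * hχf.toFinset.card := by
      refine Finset.card_le_mul_card_image_of_maps_to hWm Δ ?_
      intro v _
      refine le_trans ?_ (hΔ v)
      refine Finset.card_le_card_of_injOn T.al ?_ (T.al.injective.injOn)
      intro e he
      rw [Finset.mem_coe, Finset.mem_filter] at he
      rw [Finset.mem_coe, T.mem_star]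
      exact he.2
    rw [hW] at h1
    exact_mod_cast h1
  have hMΔ : M ≤ Δ := by
    have hinjrot : ∀ x y, x < y → y < M → rot x ≠ rot y := by
      intro x y hxy hy h
      change (T.rho ^ x) (T.st c s i) = (T.rho ^ y) (T.st c s i) at h
      have e1 : y = x + (y - x) := by omega
      rw [e1, pow_add] at h
      have h2 : (T.rho ^ (y - x)) (T.st c s i) = T.st c s i := ((T.rho ^ x).injective h).symm
      apply hMmin (M - (y - x)) (by omega)
      have e2 : M = (M - (y - x)) + (y - x) := by omega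
      rw [e2, pow_add] at hM
      change (T.rho ^ (M - (y - x))) ((T.rho ^ (y - x)) (T.st c s i)) = _ at hM
      rw [h2] at hM
      exact hM
    have h1 : ((Finset.range M).image rot).card = M := by
      rw [Finset.card_image_of_injOn, Finset.card_range]
      intro x hx y hy hxy
      rw [Finset.mem_coe, Finset.mem_range] at hx hy
      by_contra hne
      rcases lt_or_gt_of_ne hne with h | h
      · exact hinjrot x y h hy hxy
      · exact hinjrot y x h hx hxy.symm
    have h2 : ((Finset.range M).image rot).card ≤ (T.star b).card := by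
      refine Finset.card_le_card_of_injOn T.al ?_ (T.al.injective.injOn)
      intro e he
      rw [Finset.mem_coe, Finset.mem_image] at he
      obtain ⟨k, _, rfl⟩ := he
      rw [Finset.mem_coe, T.mem_star]
      exact hrotrt k
    rw [h1] at h2
    exact h2.trans (hΔ b)
  have hrotsum : -((K : ℤ) * M) ≤ ∑ k ∈ Finset.range M, θ (rot k) := by
    have e1 : -((K : ℤ) * M) = ∑ k ∈ Finset.range M, (-(K : ℤ)) := by
      rw [Finset.sum_const, Finset.card_range, nsmul_eq_mul]
      ring
    rw [e1]
    refine Finset.sum_le_sum ?_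
    intro k _
    exact (abs_le.1 (hθ.bdd (rot k))).1
  have hmi : i - j = m := by omega
  rw [hmi]
  have hfin1 : ∑ k ∈ Finset.Ico j i, θ (T.st c s k) ≤ -(hχf.toFinset.card : ℤ) + K * M := by
    have h1 : ∑ k ∈ Finset.Ico j i, θ (T.st c s k) + ∑ k ∈ Finset.range M, θ (rot k)
        = ∑ v ∈ hχf.toFinset, χ v * ∑ d ∈ T.star v, θ d := by
      rw [← hsum]
      exact hflux
    linarith
  have hΔ0 : (0 : ℤ) ≤ Δ := Int.natCast_nonneg Δ
  have hKM : (K : ℤ) * M ≤ K * Δ := by
    have : (M : ℤ) ≤ Δ := by exact_mod_cast hMΔ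
    exact mul_le_mul_of_nonneg_left this (Int.natCast_nonneg K)
  calc (Δ : ℤ) * ∑ k ∈ Finset.Ico j i, θ (T.st c s k)
      ≤ Δ * (-(hχf.toFinset.card : ℤ) + K * M) := mul_le_mul_of_nonneg_left hfin1 hΔ0
    _ ≤ Δ * (-(hχf.toFinset.card : ℤ) + K * Δ) := by
        refine mul_le_mul_of_nonneg_left ?_ hΔ0
        linarith
    _ = -(Δ * (hχf.toFinset.card : ℤ)) + K * Δ * Δ := by ring
    _ ≤ -(m : ℤ) + K * Δ * Δ := by linarith

end Pool.Agent.BS.H96
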